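import Pool.Agent.MP_a9857c_nt.H82.Fourier
import Pool.Agent.MP_a9857c_nt.H82.MainTerm
import Pool.Agent.MP_a9857c_nt.H82.Per
import Pool.Agent.MP_a9857c_nt.H82.Conc
import Pool.Agent.MP_a9857c_nt.H82.Tail
import Pool.Agent.MP_a9857c_nt.H82.Bil
import Pool.Agent.MP_a9857c_nt.H82.MainBil
import Pool.Agent.MP_a9857c_nt.H82.Sigma
import Pool.Agent.MP_a9857c_nt.H82.Ram
import Pool.Agent.MP_a9857c_nt.H82.Klo
import Pool.Agent.MP_a9857c_nt.H82.Final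

set_option autoImplicit false

open Finset Real

namespace Pool.Agent.Results.MP_a9857c_nt.LargePrimes

open Pool.Agent.MP_a9857c_nt.H82

theorem result :
    ∀ ε : ℝ, 0 < ε → ∃ k₀ : ℕ, ∀ k : ℕ, k.Prime → k₀ ≤ k →
      |((∑ h ∈ Icc 1 (k - 1), ∑ j ∈ Icc 1 (k - 1), (-1 : ℤ) ^ (j + 1 + h * j / k) : ℤ) : ℝ) /
        (k * Real.log k) - 1 / 2| ≤ ε :=
  Final.final Fourier.fourier Fourier.ident MainTerm.mainTerm Per.per MainTerm.smooth
    (Tail.tail Conc.conc) (Klo.klo (MainBil.mainBil Bil.bil) Sigma.sigma Sigma.exc Ram.ram)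

end Pool.Agent.Results.MP_a9857c_nt.LargePrimes
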